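import Pool.Agent.E8helper17.CND.S

/-! Project CND, piece BASE. -/

set_option autoImplicit false

open H17CND

namespace Pool.Agent.E8helper55.CNDBASE

/-- the cycle with one isolated vertex -/
def G0 (N : ℕ) : SimpleGraph (Option (ZMod N)) := (cyc N).map Function.Embedding.some

theorem adj_some {N : ℕ} (a b : ZMod N) : (G0 N).Adj (some a) (some b) ↔ (cyc N).Adj a b := by
  unfold G0
  rw [SimpleGraph.map_adj]
  constructor
  · rintro ⟨u, v, h, h1, h2⟩
    have h1' : u = a := by simpa using h1
    have h2' : v = b := by simpa using h2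
    rw [← h1', ← h2']
    exact h
  · intro h
    exact ⟨a, b, h, rfl, rfl⟩

theorem adj_none {N : ℕ} (x : Option (ZMod N)) : ¬ (G0 N).Adj none x := by
  unfold G0
  rw [SimpleGraph.map_adj]
  rintro ⟨u, v, -, h1, -⟩
  simp at h1

theorem girth0 (hC : S_CYC) {N : ℕ} (hN : 3 ≤ N) : GirthGE (G0 N) N := by
  intro v c hc
  have hs : ∀ x ∈ c.support, x ∈ Set.range (some : ZMod N → Option (ZMod N)) := by
    intro x hx
    cases x with
    | some a => exact ⟨a, rfl⟩
    | none =>
      exfalso
      have h1 := hc.rotate (u := none) hx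
      generalize c.rotate none hx = w at h1
      cases w with
      | nil => exact h1.ne_nil rfl
      | cons h p => exact adj_none _ h
  set w := c.induce (Set.range some) hs with hw
  have hmap : w.map (SimpleGraph.Embedding.induce (Set.range some)).toHom = c :=
    c.map_induce hs
  have hwc : w.IsCycle := by
    have hi : Function.Injective (SimpleGraph.Embedding.induce (G := G0 N) (Set.range some)).toHom :=
      (SimpleGraph.Embedding.induce (G := G0 N) (Set.range some)).injective
    rw [← SimpleGraph.Walk.isCycle_map_iff_of_injective hi, hmap]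
    exact hc
  let ψ : (G0 N).induce (Set.range some) →g cyc N :=
    { toFun := fun x => x.2.choose
      map_rel' := by
        intro x y hxy
        have h1 : (G0 N).Adj x.1 y.1 := hxy
        rw [← x.2.choose_spec, ← y.2.choose_spec, adj_some] at h1
        exact h1 }
  have hψ : Function.Injective ψ := by
    intro x y hxy
    apply Subtype.ext
    rw [← x.2.choose_spec, ← y.2.choose_spec]
    exact congrArg some hxy
  have h2 := hC N hN _ (w.map ψ)
    ((SimpleGraph.Walk.isCycle_map_iff_of_injective hψ).2 hwc)
  rw [SimpleGraph.Walk.length_map] at h2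
  have h3 : w.length = c.length := by
    have h4 := congrArg SimpleGraph.Walk.length hmap
    rw [SimpleGraph.Walk.length_map] at h4
    exact h4
  exact h2.trans h3.le

theorem deg0 {N : ℕ} : DegLE (G0 N) 2 := by
  intro v
  cases v with
  | none =>
    have : (G0 N).neighborSet none = ∅ := by
      ext x
      simp only [SimpleGraph.mem_neighborSet, Set.mem_empty_iff_false, iff_false]
      exact adj_none x
    rw [this]
    simp
  | some a =>
    have hsub : (G0 N).neighborSet (some a) ⊆ {some (a + 1), some (a - 1)} := by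
      intro x hx
      rw [SimpleGraph.mem_neighborSet] at hx
      cases x with
      | none => exact absurd hx.symm (adj_none _)
      | some b =>
        rw [adj_some] at hx
        unfold cyc at hx
        rw [SimpleGraph.fromRel_adj] at hx
        rcases hx.2 with h | h
        · left
          rw [h]
        · right
          rw [h]
          simp
    refine (Set.ncard_le_ncard hsub (Set.toFinite _)).trans ?_
    refine (Set.ncard_insert_le _ _).trans ?_
    rw [Set.ncard_singleton]

theorem step (hE : S_EXT) (hD : S_DEG) {g N D : ℕ} [NeZero N] (hN : 7 ^ g < N) (hDle : D ≤ 5)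
    (G : SimpleGraph (Option (ZMod N))) (hG : GirthGE G g) (hd : DegLE G D) :
    ∃ t : ZMod N, Far G none (some t) (g + 1) ∧
      GirthGE (G ⊔ SimpleGraph.edge none (some t)) g ∧
      DegLE (G ⊔ SimpleGraph.edge none (some t)) (D + 1) := by
  classical
  have hcard : (D + 1) ^ g < ((Finset.univ : Finset (ZMod N)).map Function.Embedding.some).card := by
    rw [Finset.card_map, Finset.card_univ, ZMod.card]
    refine lt_of_le_of_lt (Nat.pow_le_pow_left (by omega) g) hN
  obtain ⟨b, hb, hbn, hfar, hgir⟩ := hE (Option (ZMod N)) G g D none _ hG hd hcard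
  obtain ⟨t, -, rfl⟩ := Finset.mem_map.1 hb
  refine ⟨t, hfar, hgir, ?_⟩
  intro v
  have h1 := hD (Option (ZMod N)) G none (some t) v (by simp)
  have h2 := hd v
  refine h1.trans ?_
  by_cases hv : v = none
  · rw [if_pos hv, if_neg (by rw [hv]; simp)]
    omega
  · rw [if_neg hv]
    split_ifs <;> omega

theorem ne_of_far {N g : ℕ} (hg : 1 ≤ g) {G : SimpleGraph (Option (ZMod N))} {s t : ZMod N}
    (hs : G.Adj none (some s)) (ht : Far G none (some t) (g + 1)) : s ≠ t := by
  rintro rfl
  have := ht hs.toWalk
  simp at this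
  omega

theorem adj_edge {N : ℕ} (G : SimpleGraph (Option (ZMod N))) (t : ZMod N) :
    (G ⊔ SimpleGraph.edge none (some t)).Adj none (some t) := by
  rw [SimpleGraph.sup_adj]
  right
  rw [SimpleGraph.edge_adj]
  simp

theorem BASE (hE : S_EXT) (hD : S_DEG) (hC : S_CYC) : S_BASE := by
  intro g N hg hgN h7 hN
  have : NeZero N := ⟨by omega⟩
  have hg0 : GirthGE (G0 N) g := fun v c hc => hgN.trans (girth0 hC hN v c hc)
  obtain ⟨t0, f0, g1, d1⟩ := step hE hD h7 (by omega) (G0 N) hg0 deg0
  obtain ⟨t1, f1, g2, d2⟩ := step hE hD h7 (by omega) _ g1 d1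
  obtain ⟨t2, f2, g3, d3⟩ := step hE hD h7 (by omega) _ g2 d2
  obtain ⟨t3, f3, g4, d4⟩ := step hE hD h7 (by omega) _ g3 d3
  set G1 := G0 N ⊔ SimpleGraph.edge none (some t0) with hG1
  set G2 := G1 ⊔ SimpleGraph.edge none (some t1) with hG2
  set G3 := G2 ⊔ SimpleGraph.edge none (some t2) with hG3
  set G4 := G3 ⊔ SimpleGraph.edge none (some t3) with hG4
  have l01 : G0 N ≤ G1 := le_sup_left
  have l12 : G1 ≤ G2 := le_sup_left
  have l23 : G2 ≤ G3 := le_sup_left
  have l34 : G3 ≤ G4 := le_sup_left
  have a0 : G1.Adj none (some t0) := adj_edge _ _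
  have a1 : G2.Adj none (some t1) := adj_edge _ _
  have a2 : G3.Adj none (some t2) := adj_edge _ _
  have a3 : G4.Adj none (some t3) := adj_edge _ _
  have n01 : t0 ≠ t1 := ne_of_far hg a0 f1
  have n02 : t0 ≠ t2 := ne_of_far hg (l12 a0) f2
  have n03 : t0 ≠ t3 := ne_of_far hg (l23 (l12 a0)) f3
  have n12 : t1 ≠ t2 := ne_of_far hg a1 f2
  have n13 : t1 ≠ t3 := ne_of_far hg (l23 a1) f3
  have n23 : t2 ≠ t3 := ne_of_far hg a2 f3
  refine ⟨![t0, t1, t2, t3], G4, ?_, ?_, ?_, g4, d4⟩
  · intro i j hij
    fin_cases i <;> fin_cases j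
    · rfl
    · exact absurd hij n01
    · exact absurd hij n02
    · exact absurd hij n03
    · exact absurd hij.symm n01
    · rfl
    · exact absurd hij n12
    · exact absurd hij n13
    · exact absurd hij.symm n02
    · exact absurd hij.symm n12
    · rfl
    · exact absurd hij n23
    · exact absurd hij.symm n03
    · exact absurd hij.symm n13
    · exact absurd hij.symm n23
    · rfl
  · intro a
    refine l34 (l23 (l12 (l01 ?_)))
    rw [adj_some]
    unfold cyc
    rw [SimpleGraph.fromRel_adj]
    refine ⟨?_, Or.inl rfl⟩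
    intro h
    have h1 : (1 : ZMod N) = 0 := by
      have := congrArg (fun x => x - a) h
      simpa using this.symm
    have : Fact (1 < N) := ⟨by omega⟩
    exact one_ne_zero h1
  · intro i
    fin_cases i
    · exact l34 (l23 (l12 a0))
    · exact l34 (l23 a1)
    · exact l34 a2
    · exact a3

end Pool.Agent.E8helper55.CNDBASE
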